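import Mathlib
import Pool.Agent.X241.Girth

/-!
# Adaptive vantage points: a linear lower bound

For every `K` there is a 6-regular instance with `n ≥ K k` in which every deterministic adaptive
algorithm with `m ≤ n / 16` vantage points reveals at most `6 m` capacities for some capacities for
which `OPT ≥ n / 4`.
-/

set_option autoImplicit false
set_option linter.unusedSectionVars false

namespace Pool.Agent.Results.MP_617207_lc.LinearLowerBound

open SimpleGraph

/-- The length of a walk. -/
noncomputable def len {V : Type} {G : SimpleGraph V} (ℓ : Sym2 V → ℝ) {s t : V} (p : G.Walk s t) : ℝ :=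
  (p.edges.map ℓ).sum

/-- `p` is a shortest walk between its endpoints. -/
def IsShortest {V : Type} {G : SimpleGraph V} (ℓ : Sym2 V → ℝ) {s t : V} (p : G.Walk s t) : Prop :=
  ∀ q : G.Walk s t, len ℓ p ≤ len ℓ q

/-- Shortest walks are unique (so `P(s,t)` is the unique shortest path for all `s`, `t` in the same
component). -/
def UniqueShortest {V : Type} (G : SimpleGraph V) (ℓ : Sym2 V → ℝ) : Prop :=
  ∀ (s t : V) (p q : G.Walk s t), IsShortest ℓ p → IsShortest ℓ q → p = q

/-- `e` is the bottleneck edge of `P(s,t)` for the capacities `c`. -/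
def IsBottleneck {V : Type} (G : SimpleGraph V) (ℓ c : Sym2 V → ℝ) (s t : V) (e : Sym2 V) : Prop :=
  ∃ p : G.Walk s t, IsShortest ℓ p ∧ e ∈ p.edges ∧ ∀ e' ∈ p.edges, e' ≠ e → c e < c e'

/-- `R(S)`. -/
def revealed {V : Type} (G : SimpleGraph V) (ℓ c : Sym2 V → ℝ) (S : Set V) : Set (Sym2 V) :=
  {e | ∃ s ∈ S, ∃ t, IsBottleneck G ℓ c s t e}

open Classical in
/-- What the algorithm learns after choosing `s`: for every `t` the bottleneck edge of `P(s,t)` (if
there is one) and its capacity. -/
noncomputable def observe {V : Type} (G : SimpleGraph V) (ℓ c : Sym2 V → ℝ) (s : V) :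
    V → Option (Sym2 V × ℝ) :=
  fun t => if h : ∃ e, IsBottleneck G ℓ c s t e then some (h.choose, c h.choose) else none

/-- The list of the first (at most) `m` vantage points of the adaptive algorithm `A`, which maps the
list of the observations made so far to the next vantage point, or to `none` if it stops. -/
noncomputable def run {V : Type} (G : SimpleGraph V) (ℓ c : Sym2 V → ℝ)
    (A : List (V → Option (Sym2 V × ℝ)) → Option V) : ℕ → List V
  | 0 => []
  | m + 1 => match A ((run G ℓ c A m).map (observe G ℓ c)) with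
    | none => run G ℓ c A m
    | some v => run G ℓ c A m ++ [v]

/-! ### Lengths with unique shortest paths -/

section Lengths

variable {V : Type} [Fintype V] [DecidableEq V] {G : SimpleGraph V}

/-- An enumeration of the pairs. -/
noncomputable def idx (e : Sym2 V) : ℕ := (Fintype.equivFin (Sym2 V) e : ℕ)

lemma idx_lt (e : Sym2 V) : idx e < Fintype.card (Sym2 V) := (Fintype.equivFin (Sym2 V) e).isLt

lemma idx_inj : Function.Injective (idx (V := V)) := by
  intro a b h
  exact (Fintype.equivFin (Sym2 V)).injective (Fin.val_injective h)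

variable (V) in
/-- The basic length. -/
noncomputable def big : ℕ := 2 ^ Fintype.card (Sym2 V)

/-- The length of an edge, as a natural number. -/
noncomputable def wN (e : Sym2 V) : ℕ := big V + 2 ^ idx e

/-- The length of a walk, as a natural number. -/
noncomputable def lenN {s t : V} (p : G.Walk s t) : ℕ := (p.edges.map wN).sum

/-- The lengths. -/
noncomputable def ell (e : Sym2 V) : ℝ := (wN e : ℝ)

lemma len_ell {s t : V} (p : G.Walk s t) : len ell p = lenN p := by
  unfold len lenN
  induction p.edges with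
  | nil => simp
  | cons a l ih =>
    rw [List.map_cons, List.sum_cons, List.map_cons, List.sum_cons, ih]
    push_cast
    rfl

lemma wN_pos (e : Sym2 V) : 0 < wN e := by
  unfold wN
  positivity

lemma lenN_ge {s t : V} (p : G.Walk s t) : big V * p.length ≤ lenN p := by
  unfold lenN
  rw [← Walk.length_edges]
  induction p.edges with
  | nil => simp
  | cons a l ih =>
    rw [List.map_cons, List.sum_cons, List.length_cons]
    unfold wN at ih ⊢
    have : 0 < 2 ^ idx a := by positivity
    nlinarith

lemma lenN_path {s t : V} {p : G.Walk s t} (hp : p.IsPath) :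
    lenN p = big V * p.length + ∑ i ∈ p.edges.toFinset.image idx, 2 ^ i := by
  unfold lenN
  have hnd : p.edges.Nodup := hp.isTrail.edges_nodup
  rw [← List.sum_toFinset _ hnd, Finset.sum_image (fun a _ b _ h => idx_inj h)]
  unfold wN
  rw [Finset.sum_add_distrib, Finset.sum_const, List.toFinset_card_of_nodup hnd,
    Walk.length_edges, smul_eq_mul, mul_comm]

lemma sum_lt_big (E : Finset (Sym2 V)) : ∑ i ∈ E.image idx, 2 ^ i < big V := by
  unfold big
  apply Nat.geomSum_lt le_rfl
  intro i hi
  obtain ⟨e, _, rfl⟩ := Finset.mem_image.1 hi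
  exact idx_lt e

lemma path_eq_of_edges {s t : V} (p : G.Walk s t) : ∀ q : G.Walk s t, p.IsPath → q.IsPath →
    (∀ e, e ∈ p.edges ↔ e ∈ q.edges) → p = q := by
  induction p with
  | nil =>
    intro q _ hq _
    rw [Walk.isPath_iff_nil, ← Walk.eq_nil_iff_nil] at hq
    exact hq.symm
  | @cons s u t h p' ih =>
    intro q hp hq he
    rw [Walk.cons_isPath_iff] at hp
    cases q with
    | nil =>
      exfalso
      have := (he s(s, u)).1 (by simp)
      simp at this
    | @cons _ u' _ h' q' =>
      rw [Walk.cons_isPath_iff] at hq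
      have h1 := (he s(s, u)).1 (by simp)
      rw [Walk.edges_cons, List.mem_cons] at h1
      rcases h1 with h1 | h1
      · have huu : u = u' := by
          rw [Sym2.eq_iff] at h1
          rcases h1 with h1 | h1
          · exact h1.2
          · exact h1.2.trans h1.1
        subst huu
        congr 1
        apply ih q' hp.1 hq.1
        intro e
        have h2 := he e
        rw [Walk.edges_cons, Walk.edges_cons, List.mem_cons, List.mem_cons] at h2
        constructor
        · intro h3
          rcases h2.1 (Or.inr h3) with h4 | h4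
          · exfalso
            rw [h4] at h3
            exact hp.2 (Walk.fst_mem_support_of_mem_edges _ h3)
          · exact h4
        · intro h3
          rcases h2.2 (Or.inr h3) with h4 | h4
          · exfalso
            rw [h4] at h3
            exact hq.2 (Walk.fst_mem_support_of_mem_edges _ h3)
          · exact h4
      · exfalso
        exact hq.2 (Walk.fst_mem_support_of_mem_edges _ h1)

lemma path_eq_of_lenN {s t : V} {p q : G.Walk s t} (hp : p.IsPath) (hq : q.IsPath)
    (h : lenN p = lenN q) : p = q := by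
  rw [lenN_path hp, lenN_path hq] at h
  have h1 := sum_lt_big p.edges.toFinset
  have h2 := sum_lt_big q.edges.toFinset
  have h3 : p.length = q.length := by
    by_contra hne
    rcases Nat.lt_or_gt_of_ne hne with hlt | hlt
    · have : big V * (p.length + 1) ≤ big V * q.length := Nat.mul_le_mul_left _ hlt
      rw [mul_add, mul_one] at this
      omega
    · have : big V * (q.length + 1) ≤ big V * p.length := Nat.mul_le_mul_left _ hlt
      rw [mul_add, mul_one] at this
      omega
  rw [h3] at h
  have h4 : p.edges.toFinset.image idx = q.edges.toFinset.image idx :=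
    Finset.geomSum_injective le_rfl (Nat.add_left_cancel h)
  have h5 := Finset.image_injective idx_inj h4
  apply path_eq_of_edges p q hp hq
  intro e
  rw [← List.mem_toFinset, h5, List.mem_toFinset]

lemma lenN_bypass {s t : V} (p : G.Walk s t) :
    lenN p.bypass ≤ lenN p ∧ (p.bypass.length < p.length → lenN p.bypass < lenN p) := by
  have hnd : p.bypass.edges.Nodup := p.bypass_isPath.isTrail.edges_nodup
  have hsub : p.bypass.edges.Subperm p.edges := hnd.subperm p.edges_bypass_subset_edges
  have key : ∀ l l' : List (Sym2 V), l.Subperm l' → (l.map wN).sum ≤ (l'.map wN).sum := by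
    intro l l' h
    obtain ⟨l₂, h1, h2⟩ := h
    rw [← (h1.map wN).sum_eq]
    exact (h2.map wN).sum_le_sum (fun _ _ => Nat.zero_le _)
  refine ⟨key _ _ hsub, fun hlt => ?_⟩
  obtain ⟨a, ha⟩ := hsub.exists_of_length_lt (by rwa [Walk.length_edges, Walk.length_edges])
  have h1 := key _ _ ha
  rw [List.map_cons, List.sum_cons] at h1
  have := wN_pos a
  unfold lenN
  omega

lemma isPath_of_shortest {s t : V} {p : G.Walk s t} (hp : IsShortest ell p) : p.IsPath := by
  have h1 := hp p.bypass
  rw [len_ell, len_ell] at h1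
  have h2 : lenN p ≤ lenN p.bypass := by exact_mod_cast h1
  have h3 : p.length ≤ p.bypass.length := by
    by_contra hcon
    have := (lenN_bypass p).2 (by omega)
    omega
  have h4 := p.bypass_eq_self_of_length_le_length_bypass h3
  rw [← h4]
  exact p.bypass_isPath

lemma uniqueShortest_ell : UniqueShortest G ell := by
  intro s t p q hp hq
  apply path_eq_of_lenN (isPath_of_shortest hp) (isPath_of_shortest hq)
  have h1 := hp q
  have h2 := hq p
  rw [len_ell, len_ell] at h1 h2
  have h3 : lenN p ≤ lenN q := by exact_mod_cast h1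
  have h4 : lenN q ≤ lenN p := by exact_mod_cast h2
  omega

/-- A short path is a shortest path. -/
lemma shortest_of_short {r : ℕ}
    (hr : ∀ (s t : V) (p q : G.Walk s t), p.IsPath → q.IsPath → p.length ≤ r → q.length ≤ r → p = q)
    {s t : V} {p : G.Walk s t} (hp : p.IsPath) (hpr : p.length ≤ r) : IsShortest ell p := by
  intro q
  rw [len_ell, len_ell]
  norm_cast
  by_cases h : q.bypass.length ≤ p.length
  · have h1 : q.bypass = p := hr _ _ _ _ q.bypass_isPath hp (h.trans hpr) hpr
    rw [← h1]
    exact (lenN_bypass q).1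
  · have h1 : lenN p < big V * (p.length + 1) := by
      rw [lenN_path hp, mul_add, mul_one]
      have := sum_lt_big p.edges.toFinset
      omega
    have h2 := lenN_ge q
    have h3 : big V * (p.length + 1) ≤ big V * q.length := by
      apply Nat.mul_le_mul_left
      have := q.length_bypass_le_length
      omega
    omega

end Lengths

/-! ### The adversary -/

section Adversary

open Classical

variable {V : Type} [Fintype V] {G : SimpleGraph V}

/-- `e` is incident to one of the vantage points `L`. -/
def Inc (L : List V) (e : Sym2 V) : Prop := ∃ v ∈ L, v ∈ e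

/-- The index of the first vantage point incident to `e`. -/
noncomputable def posn (L : List V) (e : Sym2 V) : ℕ := L.findIdx fun v => decide (v ∈ e)

variable (V) in
/-- A large number. -/
noncomputable def MM : ℕ := Fintype.card (Sym2 V) + 1

/-- The capacities of the adversary. -/
noncomputable def c0 (L : List V) (e : Sym2 V) : ℝ := ((posn L e * MM V + idx e + 1 : ℕ) : ℝ)

lemma posn_lt {L : List V} {e : Sym2 V} : posn L e < L.length ↔ Inc L e := by
  unfold posn Inc
  rw [List.findIdx_lt_length]
  simp

lemma posn_append_of_inc {L : List V} {e : Sym2 V} (h : Inc L e) (L' : List V) :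
    posn (L ++ L') e = posn L e := by
  have h1 := posn_lt.2 h
  unfold posn at h1 ⊢
  rw [List.findIdx_append, if_pos h1]

lemma le_posn_append {L : List V} {e : Sym2 V} (h : ¬ Inc L e) (L' : List V) :
    L.length ≤ posn (L ++ L') e := by
  have h1 : ¬ posn L e < L.length := fun h2 => h (posn_lt.1 h2)
  unfold posn at h1 ⊢
  rw [List.findIdx_append, if_neg h1]
  omega

lemma Inc.append {L : List V} {e : Sym2 V} (h : Inc L e) (L' : List V) : Inc (L ++ L') e := by
  obtain ⟨v, hv, he⟩ := h
  exact ⟨v, List.mem_append_left _ hv, he⟩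

/-- The capacities `c` are compatible with the answers given to the vantage points `L`. -/
def Good (L : List V) (c : Sym2 V → ℝ) : Prop :=
  (∀ e, Inc L e → c e = c0 L e) ∧ ∀ e, ¬ Inc L e → ((L.length * MM V : ℕ) : ℝ) < c e

lemma c0_le {L : List V} {e : Sym2 V} (h : Inc L e) : c0 L e ≤ ((L.length * MM V : ℕ) : ℝ) := by
  unfold c0
  have h1 := posn_lt.2 h
  have h2 := idx_lt e
  have h3 : (posn L e + 1) * MM V ≤ L.length * MM V := Nat.mul_le_mul_right _ h1
  have h4 : posn L e * MM V + idx e + 1 ≤ L.length * MM V := by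
    rw [add_mul, one_mul] at h3
    unfold MM at h3 ⊢
    omega
  exact_mod_cast h4

lemma good_c0 (L : List V) : Good L (c0 L) := by
  refine ⟨fun _ _ => rfl, fun e he => ?_⟩
  unfold c0
  have h1 : L.length ≤ posn L e := by
    have := le_posn_append he []
    rwa [List.append_nil] at this
  have h2 := Nat.mul_le_mul_right (MM V) h1
  have h3 : L.length * MM V < posn L e * MM V + idx e + 1 := by omega
  exact_mod_cast h3

lemma Good.left {L L' : List V} {c : Sym2 V → ℝ} (h : Good (L ++ L') c) : Good L c := by
  refine ⟨fun e he => ?_, fun e he => ?_⟩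
  · rw [h.1 e (he.append L')]
    unfold c0
    rw [posn_append_of_inc he]
  · by_cases h1 : Inc (L ++ L') e
    · rw [h.1 e h1]
      unfold c0
      have h2 := Nat.mul_le_mul_right (MM V) (le_posn_append he L')
      have h3 : L.length * MM V < posn (L ++ L') e * MM V + idx e + 1 := by omega
      exact_mod_cast h3
    · refine lt_of_le_of_lt ?_ (h.2 e h1)
      have h2 : L.length * MM V ≤ (L ++ L').length * MM V := by
        apply Nat.mul_le_mul_right
        rw [List.length_append]
        omega
      exact_mod_cast h2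

lemma bott_inc {ℓ : Sym2 V → ℝ} {L : List V} {c : Sym2 V → ℝ} (h : Good L c) {v t : V}
    (hv : v ∈ L) {e : Sym2 V} (he : IsBottleneck G ℓ c v t e) : Inc L e := by
  obtain ⟨p, _, h2, h3⟩ := he
  cases p with
  | nil => simp at h2
  | @cons _ u _ hadj p' =>
    have hf : Inc L s(v, u) := ⟨v, hv, Sym2.mem_mk_left _ _⟩
    by_cases hef : e = s(v, u)
    · rw [hef]
      exact hf
    · by_contra hcon
      have h4 := h3 s(v, u) (by simp) (Ne.symm hef)
      have h5 := h.2 e hcon
      rw [h.1 _ hf] at h4
      have h6 := c0_le hf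
      linarith

lemma bott_transfer {ℓ : Sym2 V → ℝ} {L : List V} {c c' : Sym2 V → ℝ} (h : Good L c)
    (h' : Good L c') {v t : V} (hv : v ∈ L) {e : Sym2 V} (he : IsBottleneck G ℓ c v t e) :
    IsBottleneck G ℓ c' v t e := by
  have hinc := bott_inc h hv he
  obtain ⟨p, h1, h2, h3⟩ := he
  refine ⟨p, h1, h2, fun e' he' hne => ?_⟩
  have h4 := h3 e' he' hne
  rw [h'.1 e hinc]
  by_cases h5 : Inc L e'
  · rw [h'.1 e' h5, ← h.1 e' h5, ← h.1 e hinc]
    exact h4
  · exact lt_of_le_of_lt (c0_le hinc) (h'.2 e' h5)

lemma obs_eq {ℓ : Sym2 V → ℝ} {L : List V} {c c' : Sym2 V → ℝ} (h : Good L c)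
    (h' : Good L c') {v : V} (hv : v ∈ L) : observe G ℓ c v = observe G ℓ c' v := by
  funext t
  have hP : (fun e => IsBottleneck G ℓ c v t e) = fun e => IsBottleneck G ℓ c' v t e := by
    funext e
    exact propext ⟨bott_transfer h h' hv, bott_transfer h' h hv⟩
  have key : ∀ (P Q : Sym2 V → Prop), P = Q → ∀ (h1 : ∃ e, P e) (h2 : ∃ e, Q e),
      h1.choose = h2.choose := by
    rintro P Q rfl h1 h2
    rfl
  unfold observe
  by_cases h1 : ∃ e, IsBottleneck G ℓ c v t e
  · have h2 : ∃ e, IsBottleneck G ℓ c' v t e := by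
      obtain ⟨e, he⟩ := h1
      exact ⟨e, bott_transfer h h' hv he⟩
    rw [dif_pos h1, dif_pos h2]
    have h3 := key _ _ hP h1 h2
    have h4 : c h1.choose = c' h2.choose := by
      have h5 := bott_inc h hv h1.choose_spec
      rw [h.1 _ h5, ← h'.1 _ h5, h3]
    rw [h4, h3]
  · have h2 : ¬ ∃ e, IsBottleneck G ℓ c' v t e := by
      rintro ⟨e, he⟩
      exact h1 ⟨e, bott_transfer h' h hv he⟩
    rw [dif_neg h1, dif_neg h2]

/-- The vantage points of the algorithm against the adversary. -/
noncomputable def adv (G : SimpleGraph V) (ℓ : Sym2 V → ℝ)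
    (A : List (V → Option (Sym2 V × ℝ)) → Option V) : ℕ → List V
  | 0 => []
  | m + 1 => match A ((adv G ℓ A m).map (observe G ℓ (c0 (adv G ℓ A m)))) with
    | none => adv G ℓ A m
    | some v => adv G ℓ A m ++ [v]

lemma adv_succ (ℓ : Sym2 V → ℝ) (A : List (V → Option (Sym2 V × ℝ)) → Option V) (m : ℕ) :
    ∃ L', adv G ℓ A (m + 1) = adv G ℓ A m ++ L' ∧ L'.length ≤ 1 := by
  have h : adv G ℓ A (m + 1) = match A ((adv G ℓ A m).map (observe G ℓ (c0 (adv G ℓ A m)))) with
    | none => adv G ℓ A m
    | some v => adv G ℓ A m ++ [v] := rfl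
  rw [h]
  split
  · exact ⟨[], by simp, by simp⟩
  · exact ⟨_, rfl, by simp⟩

lemma adv_length (ℓ : Sym2 V → ℝ) (A : List (V → Option (Sym2 V × ℝ)) → Option V) (m : ℕ) :
    (adv G ℓ A m).length ≤ m := by
  induction m with
  | zero => exact le_rfl
  | succ m ih =>
    obtain ⟨L', h1, h2⟩ := adv_succ (G := G) ℓ A m
    rw [h1, List.length_append]
    omega

lemma run_eq_adv (ℓ : Sym2 V → ℝ) (A : List (V → Option (Sym2 V × ℝ)) → Option V) (m : ℕ) :
    ∀ c : Sym2 V → ℝ, Good (adv G ℓ A m) c → run G ℓ c A m = adv G ℓ A m := by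
  induction m with
  | zero => intro c _; rfl
  | succ m ih =>
    intro c hc
    obtain ⟨L', h1, _⟩ := adv_succ (G := G) ℓ A m
    rw [h1] at hc
    have hc' := hc.left
    have h3 := ih c hc'
    have h4 : (adv G ℓ A m).map (observe G ℓ c) =
        (adv G ℓ A m).map (observe G ℓ (c0 (adv G ℓ A m))) := by
      apply List.map_congr_left
      intro v hv
      exact obs_eq hc' (good_c0 _) hv
    have e1 : run G ℓ c A (m + 1) = match A ((run G ℓ c A m).map (observe G ℓ c)) with
      | none => run G ℓ c A m
      | some v => run G ℓ c A m ++ [v] := rfl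
    have e2 : adv G ℓ A (m + 1) = match A ((adv G ℓ A m).map (observe G ℓ (c0 (adv G ℓ A m)))) with
      | none => adv G ℓ A m
      | some v => adv G ℓ A m ++ [v] := rfl
    rw [e1, e2, h3, h4]

lemma revealed_small {ℓ : Sym2 V → ℝ} {c : Sym2 V → ℝ} {d : ℕ}
    (hd : ∀ v, (G.neighborSet v).ncard = d) {L : List V} (h : Good L c) :
    (revealed G ℓ c {v | v ∈ L}).ncard ≤ d * L.length := by
  have h1 : revealed G ℓ c {v | v ∈ L} ⊆ {e | e ∈ G.edgeSet ∧ Inc L e} := by
    rintro e ⟨s, hs, t, he⟩
    refine ⟨?_, bott_inc h hs he⟩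
    obtain ⟨p, _, h2, _⟩ := he
    exact p.edges_subset_edgeSet h2
  refine (Set.ncard_le_ncard h1 (Set.toFinite _)).trans ?_
  clear h h1
  induction L with
  | nil =>
    have : {e : Sym2 V | e ∈ G.edgeSet ∧ Inc [] e} = ∅ := by
      ext e
      simp [Inc]
    rw [this]
    simp
  | cons v L ih =>
    have h2 : {e : Sym2 V | e ∈ G.edgeSet ∧ Inc (v :: L) e} ⊆
        (fun u => s(v, u)) '' (G.neighborSet v) ∪ {e : Sym2 V | e ∈ G.edgeSet ∧ Inc L e} := by
      rintro e ⟨he, w, hw, hwe⟩
      rw [List.mem_cons] at hw
      rcases hw with rfl | hw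
      · left
        obtain ⟨u, rfl⟩ := Sym2.mem_iff_exists.1 hwe
        exact ⟨u, he, rfl⟩
      · right
        exact ⟨he, w, hw, hwe⟩
    refine (Set.ncard_le_ncard h2 (Set.toFinite _)).trans ?_
    refine (Set.ncard_union_le _ _).trans ?_
    have h3 : ((fun u => s(v, u)) '' (G.neighborSet v)).ncard ≤ d := by
      rw [← hd v]
      exact Set.ncard_image_le (Set.toFinite _)
    rw [List.length_cons, mul_add, mul_one]
    omega

end Adversary

/-! ### A subgraph with minimum degree three -/

section Core

open Classical Finset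

variable {V : Type} [Fintype V] {G : SimpleGraph V}

/-- The degree of `v` into `U`. -/
noncomputable def degIn (G : SimpleGraph V) (U : Finset V) (v : V) : ℕ :=
  (U.filter fun w => G.Adj v w).card

lemma degIn_univ {d : ℕ} (hd : ∀ v, (G.neighborSet v).ncard = d) (v : V) :
    degIn G univ v = d := by
  rw [← hd v, Set.ncard_eq_toFinset_card']
  unfold degIn
  congr 1
  ext w
  simp

lemma sum_degIn_comm (A B : Finset V) : ∑ v ∈ A, degIn G B v = ∑ w ∈ B, degIn G A w := by
  unfold degIn
  simp only [card_filter]
  rw [sum_comm]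
  apply sum_congr rfl
  intro w _
  apply sum_congr rfl
  intro v _
  simp only [G.adj_comm]

lemma exists_core (hd : ∀ v, (G.neighborSet v).ncard = 6) (Q : Finset V) :
    ∃ U : Finset V, Disjoint U Q ∧ (∀ v ∈ U, 3 ≤ degIn G U v) ∧
      Fintype.card V ≤ U.card + 7 * Q.card := by
  set f : Finset V → ℤ := fun U => (∑ v ∈ U, (degIn G U v : ℤ)) - 5 * U.card with hf
  obtain ⟨U, hU, hmax⟩ := (univ \ Q : Finset V).powerset.exists_max_image f
    ⟨∅, empty_mem_powerset _⟩
  rw [mem_powerset] at hU
  refine ⟨U, ?_, ?_, ?_⟩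
  · rw [Finset.disjoint_left]
    intro v hv
    exact (mem_sdiff.1 (hU hv)).2
  · intro v hv
    have h1 := hmax (U.erase v) (mem_powerset.2 ((erase_subset _ _).trans hU))
    have h2 : ∑ w ∈ U.erase v, (degIn G (U.erase v) w : ℤ) =
        (∑ w ∈ U, (degIn G U w : ℤ)) - 2 * degIn G U v := by
      have h3 : ∀ w ∈ U.erase v, (degIn G (U.erase v) w : ℤ) =
          degIn G U w - if G.Adj v w then 1 else 0 := by
        intro w hw
        unfold degIn
        rw [filter_erase]
        by_cases hadj : G.Adj v w
        · rw [if_pos hadj, card_erase_of_mem (mem_filter.2 ⟨hv, hadj.symm⟩)]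
          have : 0 < (U.filter fun x => G.Adj w x).card :=
            card_pos.2 ⟨v, mem_filter.2 ⟨hv, hadj.symm⟩⟩
          push_cast [Nat.cast_sub this]
          omega
        · rw [if_neg hadj, erase_eq_of_notMem]
          · simp
          · rw [mem_filter]
            exact fun h => hadj h.2.symm
      rw [sum_congr rfl h3, sum_sub_distrib]
      have h4 : ∑ w ∈ U.erase v, (degIn G U w : ℤ) = (∑ w ∈ U, (degIn G U w : ℤ)) - degIn G U v := by
        rw [← add_sum_erase U _ hv]
        ring
      have h5 : ∑ w ∈ U.erase v, (if G.Adj v w then (1 : ℤ) else 0) = degIn G U v := by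
        have h6 : ∑ w ∈ U.erase v, (if G.Adj v w then (1 : ℤ) else 0) =
            ∑ w ∈ U, (if G.Adj v w then (1 : ℤ) else 0) := by
          rw [← add_sum_erase U _ hv, if_neg (G.irrefl), zero_add]
        rw [h6]
        unfold degIn
        rw [card_filter]
        push_cast
        rfl
      rw [h4, h5]
      ring
    simp only [hf] at h1
    rw [h2, card_erase_of_mem hv] at h1
    have h3 : 0 < U.card := card_pos.2 ⟨v, hv⟩
    push_cast [Nat.cast_sub h3] at h1
    omega
  · have h1 := hmax (univ \ Q) (mem_powerset.2 (Subset.refl _))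
    have h2 : f U ≤ U.card := by
      simp only [hf]
      have h3 : ∑ v ∈ U, (degIn G U v : ℤ) ≤ ∑ v ∈ U, 6 := by
        apply sum_le_sum
        intro v _
        have h4 : degIn G U v ≤ degIn G univ v :=
          card_le_card (filter_subset_filter _ (subset_univ _))
        rw [degIn_univ hd] at h4
        exact_mod_cast h4
      rw [sum_const, nsmul_eq_mul] at h3
      linarith
    have h3 : (Fintype.card V : ℤ) - 7 * Q.card ≤ f (univ \ Q) := by
      simp only [hf]
      have h4 : ∀ v ∈ univ \ Q, (degIn G (univ \ Q) v : ℤ) = 6 - degIn G Q v := by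
        intro v _
        have h5 : degIn G (univ \ Q) v + degIn G Q v = 6 := by
          rw [← degIn_univ hd v]
          unfold degIn
          rw [← card_union_of_disjoint]
          · congr 1
            ext w
            simp only [mem_union, mem_filter, mem_sdiff, mem_univ, true_and]
            tauto
          · rw [Finset.disjoint_left]
            intro w hw hw'
            rw [mem_filter, mem_sdiff] at hw
            exact hw.1.2 (mem_filter.1 hw').1
        have : (degIn G (univ \ Q) v : ℤ) + degIn G Q v = 6 := by exact_mod_cast h5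
        linarith
      rw [sum_congr rfl h4, sum_sub_distrib, sum_const, nsmul_eq_mul]
      have h5 : ∑ v ∈ univ \ Q, (degIn G Q v : ℤ) ≤ 6 * Q.card := by
        have h6 : ∑ v ∈ univ \ Q, degIn G Q v ≤ ∑ v ∈ univ, degIn G Q v :=
          sum_le_sum_of_subset (subset_univ _)
        rw [sum_degIn_comm univ Q, sum_congr rfl fun w _ => degIn_univ hd w, sum_const,
          smul_eq_mul] at h6
        have h7 : ∑ v ∈ univ \ Q, degIn G Q v ≤ 6 * Q.card := by omega
        exact_mod_cast h7
      have h6 : (univ \ Q : Finset V).card + Q.card = Fintype.card V := by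
        rw [card_sdiff_add_card_eq_card (subset_univ _), card_univ]
      have h7 : ((univ \ Q : Finset V).card : ℤ) + Q.card = Fintype.card V := by exact_mod_cast h6
      linarith
    have h4 : (Fintype.card V : ℤ) ≤ U.card + 7 * Q.card := by linarith
    exact_mod_cast h4

/-- The subgraph of `G` with the edges inside `U`. -/
def sub (G : SimpleGraph V) (U : Finset V) : SimpleGraph V where
  Adj u v := G.Adj u v ∧ u ∈ U ∧ v ∈ U
  symm := ⟨fun _ _ h => ⟨h.1.symm, h.2.2, h.2.1⟩⟩
  loopless := ⟨fun _ h => G.irrefl h.1⟩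

lemma sub_adj {U : Finset V} {u v : V} : (sub G U).Adj u v ↔ G.Adj u v ∧ u ∈ U ∧ v ∈ U := Iff.rfl

lemma sub_le (U : Finset V) : sub G U ≤ G := fun _ _ h => h.1

lemma mem_of_walk {U : Finset V} {u v : V} (p : (sub G U).Walk u v) (hu : u ∈ U) : v ∈ U := by
  induction p with
  | nil => exact hu
  | cons h _ ih => exact ih h.2.2

/-- Uniqueness of short paths. -/
def Short (G : SimpleGraph V) (r : ℕ) : Prop :=
  ∀ (s t : V) (p q : G.Walk s t), p.IsPath → q.IsPath → p.length ≤ r → q.length ≤ r → p = q

lemma Short.sub {r : ℕ} (hr : Short G r) (U : Finset V) : Short (sub G U) r := by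
  intro s t p q hp hq hpr hqr
  have h := hr s t (p.mapLe (sub_le U)) (q.mapLe (sub_le U)) (hp.mapLe _) (hq.mapLe _)
    (by rwa [Walk.length_mapLe]) (by rwa [Walk.length_mapLe])
  have h2 := congrArg (fun w => w.support) h
  simp only [Walk.support_mapLe_eq_support] at h2
  exact Walk.ext_support h2

/-- The endpoints of the paths of length `j` from `u`. -/
noncomputable def sphere (H : SimpleGraph V) (j : ℕ) (u : V) : Finset V :=
  univ.filter fun v => ∃ p : H.Walk u v, p.IsPath ∧ p.length = j

lemma card_sphere {r : ℕ} (hr : Short G r) {U : Finset V} (hU : ∀ v ∈ U, 3 ≤ degIn G U v) {u : V}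
    (hu : u ∈ U) (j : ℕ) : j ≤ r → 2 ^ j ≤ (sphere (sub G U) j u).card := by
  have hH := hr.sub U
  set H := sub G U with hHdef
  induction j with
  | zero =>
    intro _
    rw [pow_zero]
    apply card_pos.2
    refine ⟨u, ?_⟩
    unfold sphere
    rw [mem_filter]
    exact ⟨mem_univ _, Walk.nil, Walk.IsPath.nil, rfl⟩
  | succ j ih =>
    intro hj
    have ih' := ih (by omega)
    -- the chosen paths
    have hex : ∀ v ∈ sphere H j u, ∃ p : H.Walk u v, p.IsPath ∧ p.length = j := by
      intro v hv
      unfold sphere at hv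
      exact (mem_filter.1 hv).2
    let Ext : V → Finset V := fun v =>
      univ.filter fun w => ∃ (p : H.Walk u v) (_h : H.Adj v w), p.IsPath ∧ p.length = j ∧
        w ∉ p.support
    have hExt : ∀ v ∈ sphere H j u, 2 ≤ (Ext v).card := by
      intro v hv
      obtain ⟨p, hp, hpl⟩ := hex v hv
      have hvU : v ∈ U := mem_of_walk p hu
      have h1 : (U.filter fun w => G.Adj v w) ⊆ Ext v ∪ {p.getVert (j - 1)} := by
        intro w hw
        rw [mem_filter] at hw
        have hadj : H.Adj v w := ⟨hw.2, hvU, hw.1⟩
        rw [mem_union, mem_singleton]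
        by_cases hws : w ∈ p.support
        · right
          have h2 := hH w v (p.dropUntil w hws) (Walk.cons hadj.symm Walk.nil) (hp.dropUntil hws)
            (by
              rw [Walk.cons_isPath_iff]
              exact ⟨Walk.IsPath.nil, by simpa using hadj.ne'⟩)
            (by
              have h3 := congrArg Walk.length (p.take_spec hws)
              rw [Walk.length_append] at h3
              omega)
            (by
              rw [Walk.length_cons, Walk.length_nil]
              omega)
          have h3 := congrArg Walk.length (p.take_spec hws)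
          rw [Walk.length_append, h2, Walk.length_cons, Walk.length_nil] at h3
          have h4 : (p.takeUntil w hws).length = j - 1 := by omega
          rw [← h4, Walk.getVert_length_takeUntil]
        · left
          exact mem_filter.2 ⟨mem_univ _, p, hadj, hp, hpl, hws⟩
      have h2 := (card_le_card h1).trans (card_union_le _ _)
      rw [card_singleton] at h2
      have h3 := hU v hvU
      unfold degIn at h3
      omega
    have hdisj : ∀ v ∈ sphere H j u, ∀ v' ∈ sphere H j u, v ≠ v' → Disjoint (Ext v) (Ext v') := by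
      intro v _ v' _ hne
      rw [Finset.disjoint_left]
      intro w hw hw'
      obtain ⟨p, h, hp, hpl, hws⟩ := (mem_filter.1 hw).2
      obtain ⟨p', h', hp', hpl', hws'⟩ := (mem_filter.1 hw').2
      have h1 := hH u w (p.concat h) (p'.concat h') (hp.concat hws h) (hp'.concat hws' h')
        (by rw [Walk.length_concat]; omega) (by rw [Walk.length_concat]; omega)
      obtain ⟨hv, _⟩ := Walk.concat_inj h1
      exact hne hv
    have hsub : (sphere H j u).biUnion Ext ⊆ sphere H (j + 1) u := by
      intro w hw
      obtain ⟨v, _, hw⟩ := mem_biUnion.1 hw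
      obtain ⟨p, h, hp, hpl, hws⟩ := (mem_filter.1 hw).2
      unfold sphere
      rw [mem_filter]
      exact ⟨mem_univ _, p.concat h, hp.concat hws h, by rw [Walk.length_concat, hpl]⟩
    calc 2 ^ (j + 1) ≤ (sphere H j u).card * 2 := by
          rw [pow_succ]
          exact Nat.mul_le_mul_right _ ih'
      _ = ∑ _v ∈ sphere H j u, 2 := by rw [sum_const, smul_eq_mul]
      _ ≤ ∑ v ∈ sphere H j u, (Ext v).card := sum_le_sum hExt
      _ = ((sphere H j u).biUnion Ext).card := (card_biUnion hdisj).symm
      _ ≤ (sphere H (j + 1) u).card := card_le_card hsub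

/-- The ball of radius `ρ`. -/
noncomputable def ball (H : SimpleGraph V) (ρ : ℕ) (u : V) : Finset V :=
  univ.filter fun v => ∃ p : H.Walk u v, p.length ≤ ρ

/-- Few centres. -/
lemma exists_centres {ρ : ℕ} (hr : Short G (2 * ρ)) {U : Finset V}
    (hU : ∀ v ∈ U, 3 ≤ degIn G U v) :
    ∃ S : Finset V, S ⊆ U ∧ S.card * 2 ^ ρ ≤ Fintype.card V ∧
      ∀ w ∈ U, ∃ s ∈ S, ∃ p : (sub G U).Walk s w, p.length ≤ 2 * ρ := by
  set H := sub G U with hH
  obtain ⟨S, hS, hmax⟩ := (U.powerset.filter fun S : Finset V =>
      ∀ s ∈ S, ∀ s' ∈ S, s ≠ s' → Disjoint (ball H ρ s) (ball H ρ s')).exists_max_image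
    Finset.card ⟨∅, by simp⟩
  rw [mem_filter, mem_powerset] at hS
  obtain ⟨hSU, hdisj⟩ := hS
  refine ⟨S, hSU, ?_, ?_⟩
  · calc S.card * 2 ^ ρ = ∑ _s ∈ S, 2 ^ ρ := by rw [sum_const, smul_eq_mul]
      _ ≤ ∑ s ∈ S, (ball H ρ s).card := by
          apply sum_le_sum
          intro s hs
          refine (card_sphere hr hU (hSU hs) ρ (by omega)).trans ?_
          apply card_le_card
          intro v hv
          unfold sphere at hv
          obtain ⟨p, _, hp⟩ := (mem_filter.1 hv).2
          exact mem_filter.2 ⟨mem_univ _, p, hp.le⟩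
      _ = (S.biUnion (ball H ρ)).card := (card_biUnion hdisj).symm
      _ ≤ Fintype.card V := card_le_univ _
  · intro w hw
    by_contra hcon
    push Not at hcon
    have hwS : w ∉ S := fun hws => by
      have := hcon w hws Walk.nil
      simp at this
    have hdw : ∀ s ∈ S, Disjoint (ball H ρ s) (ball H ρ w) := by
      intro s hs
      rw [Finset.disjoint_left]
      intro x hx hx'
      obtain ⟨p, hp⟩ := (mem_filter.1 hx).2
      obtain ⟨q, hq⟩ := (mem_filter.1 hx').2
      have := hcon s hs (p.append q.reverse)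
      rw [Walk.length_append, Walk.length_reverse] at this
      omega
    have h1 := hmax (insert w S) (by
      rw [mem_filter, mem_powerset]
      refine ⟨insert_subset hw hSU, ?_⟩
      intro s hs s' hs' hne
      rw [mem_insert] at hs hs'
      rcases hs with rfl | hs <;> rcases hs' with rfl | hs'
      · exact absurd rfl hne
      · exact (hdw s' hs').symm
      · exact hdw s hs
      · exact hdisj s hs s' hs' hne)
    rw [card_insert_of_notMem hwS] at h1
    omega

/-- The distance from the centres. -/
noncomputable def dd (H : SimpleGraph V) (S : Finset V) (w : V) : ℕ :=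
  if h : ∃ j, ∃ s ∈ S, ∃ p : H.Walk s w, p.length = j then Nat.find h else 0

lemma dd_le {H : SimpleGraph V} {S : Finset V} {w s : V} (hs : s ∈ S) (p : H.Walk s w) :
    dd H S w ≤ p.length := by
  unfold dd
  have h : ∃ j, ∃ s ∈ S, ∃ p : H.Walk s w, p.length = j := ⟨_, s, hs, p, rfl⟩
  rw [dif_pos h]
  exact Nat.find_min' h ⟨s, hs, p, rfl⟩

lemma exists_dd {H : SimpleGraph V} {S : Finset V} {w s : V} (hs : s ∈ S) (p : H.Walk s w) :
    ∃ s' ∈ S, ∃ p' : H.Walk s' w, p'.length = dd H S w := by
  unfold dd
  have h : ∃ j, ∃ s ∈ S, ∃ p : H.Walk s w, p.length = j := ⟨_, s, hs, p, rfl⟩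
  rw [dif_pos h]
  exact Nat.find_spec h

/-- The larger distance of the endpoints of an edge. -/
noncomputable def dm (H : SimpleGraph V) (S : Finset V) : Sym2 V → ℕ :=
  Sym2.lift ⟨fun a b => max (dd H S a) (dd H S b), fun _ _ => max_comm _ _⟩

lemma dm_mk (H : SimpleGraph V) (S : Finset V) (a b : V) :
    dm H S s(a, b) = max (dd H S a) (dd H S b) := rfl

lemma bfs {H : SimpleGraph V} {S : Finset V} (j : ℕ) : ∀ (w s : V), s ∈ S → dd H S w = j →
    ∀ p : H.Walk s w, p.length = j → p.IsPath ∧ ∀ x ∈ p.support, dd H S x ≤ j := by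
  induction j with
  | zero =>
    intro w s _ hw p hp
    cases p with
    | nil =>
      refine ⟨Walk.IsPath.nil, fun x hx => ?_⟩
      rw [Walk.support_nil, List.mem_singleton] at hx
      rw [hx, hw]
    | cons h p' => simp at hp
  | succ j ih =>
    intro w s hs hw p hp
    cases p with
    | nil => simp at hp
    | cons h p' =>
      obtain ⟨x, q, h', hq⟩ := Walk.exists_cons_eq_concat h p'
      rw [hq] at hp ⊢
      rw [Walk.length_concat] at hp
      have hql : q.length = j := by omega
      have hx1 : dd H S x ≤ j := hql ▸ dd_le hs q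
      obtain ⟨s', hs', p'', hp''⟩ := exists_dd hs q
      have hx2 : dd H S w ≤ dd H S x + 1 := by
        have := dd_le hs' (p''.concat h')
        rwa [Walk.length_concat, hp''] at this
      have hx : dd H S x = j := by omega
      obtain ⟨h1, h2⟩ := ih x s hs hx q hql
      have hws : w ∉ q.support := fun hmem => by
        have := h2 w hmem
        omega
      refine ⟨h1.concat hws h', fun y hy => ?_⟩
      rw [Walk.support_concat, List.mem_append, List.mem_singleton] at hy
      rcases hy with hy | hy
      · exact (h2 y hy).trans (Nat.le_succ j)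
      · rw [hy, hw]

/-- The final capacities. -/
noncomputable def cfin (H : SimpleGraph V) (S : Finset V) (L : List V) (e : Sym2 V) : ℝ :=
  if Inc L e then c0 L e else ((L.length * MM V : ℕ) : ℝ) + 1 + 1 / (1 + dm H S e)

lemma good_cfin (H : SimpleGraph V) (S : Finset V) (L : List V) : Good L (cfin H S L) := by
  refine ⟨fun e he => ?_, fun e he => ?_⟩
  · unfold cfin
    rw [if_pos he]
  · unfold cfin
    rw [if_neg he]
    have : (0 : ℝ) < 1 / (1 + dm H S e) := by positivity
    linarith

lemma cfin_pos (H : SimpleGraph V) (S : Finset V) (L : List V) (e : Sym2 V) : 0 < cfin H S L e := by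
  unfold cfin
  split_ifs
  · unfold c0
    positivity
  · positivity

lemma forest {ρ : ℕ} (hr : Short G (2 * ρ)) {U S : Finset V} {L : List V}
    (hUL : ∀ v ∈ U, v ∉ L)
    (hcov : ∀ w ∈ U, ∃ s ∈ S, ∃ p : (sub G U).Walk s w, p.length ≤ 2 * ρ) {w : V} (hw : w ∈ U)
    (hwS : w ∉ S) :
    ∃ u, dd (sub G U) S u < dd (sub G U) S w ∧
      s(u, w) ∈ revealed G ell (cfin (sub G U) S L) S := by
  set H := sub G U with hH
  obtain ⟨s₀, hs₀, p₀, hp₀⟩ := hcov w hw
  obtain ⟨s, hs, p, hp⟩ := exists_dd hs₀ p₀
  have hle : p.length ≤ 2 * ρ := by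
    rw [hp]
    exact (dd_le hs₀ p₀).trans hp₀
  have hpath := (bfs _ w s hs rfl p hp).1
  cases hpc : p with
  | nil => exact absurd hs hwS
  | @cons _ y _ h p' =>
    obtain ⟨x, q, h', hq⟩ := Walk.exists_cons_eq_concat h p'
    rw [hq] at hpc
    subst hpc
    rw [Walk.length_concat] at hp
    have hx1 : dd H S x ≤ q.length := dd_le hs q
    obtain ⟨s', hs', p'', hp''⟩ := exists_dd hs q
    have hx2 : dd H S w ≤ dd H S x + 1 := by
      have := dd_le hs' (p''.concat h')
      rwa [Walk.length_concat, hp''] at this
    have hx : dd H S x = q.length := by omega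
    have hqs := (bfs _ x s hs rfl q hx.symm).2
    have hxw : dd H S x < dd H S w := by omega
    refine ⟨x, hxw, s, hs, w, (q.concat h').mapLe (sub_le U), ?_, ?_, ?_⟩
    · exact shortest_of_short hr (hpath.mapLe _) (by rw [Walk.length_mapLe]; exact hle)
    · rw [Walk.edges_mapLe_eq_edges, Walk.edges_concat]
      simp
    · intro e' he' hne
      rw [Walk.edges_mapLe_eq_edges, Walk.edges_concat, List.concat_eq_append, List.mem_append,
        List.mem_singleton] at he'
      rcases he' with he' | he'
      · have hsub : ∀ e'' ∈ H.edgeSet, ¬ Inc L e'' := by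
          intro e''
          induction e'' using Sym2.ind with
          | _ a b =>
            intro hab ⟨v, hv, hve⟩
            have h2 : H.Adj a b := hab
            rw [Sym2.mem_iff] at hve
            rcases hve with rfl | rfl
            · exact hUL _ h2.2.1 hv
            · exact hUL _ h2.2.2 hv
        have h1 : ¬ Inc L s(x, w) := hsub _ h'
        have h2 : ¬ Inc L e' := hsub _ (q.edges_subset_edgeSet he')
        unfold cfin
        rw [if_neg h1, if_neg h2]
        have h3 : dm H S e' ≤ q.length := by
          induction e' using Sym2.ind with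
          | _ a b =>
            rw [dm_mk]
            rw [hx] at hqs
            exact max_le (hqs a (q.fst_mem_support_of_mem_edges he'))
              (hqs b (q.snd_mem_support_of_mem_edges he'))
        have h4 : dm H S s(x, w) = q.length + 1 := by
          rw [dm_mk, max_eq_right hxw.le, ← hp]
        have h5 : (1 : ℝ) + dm H S e' < 1 + dm H S s(x, w) := by
          have : dm H S e' < dm H S s(x, w) := by omega
          have : (dm H S e' : ℝ) < dm H S s(x, w) := by exact_mod_cast this
          linarith
        have h6 := one_div_lt_one_div_of_lt (by positivity) h5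
        linarith
      · exact absurd he' hne

lemma revealed_mono {ℓ c : Sym2 V → ℝ} {S T : Set V} (h : S ⊆ T) :
    revealed G ℓ c S ⊆ revealed G ℓ c T := by
  rintro e ⟨s, hs, t, he⟩
  exact ⟨s, h hs, t, he⟩

lemma many {ρ : ℕ} (hρ : 2 ≤ ρ) (hr : Short G (2 * ρ)) (hd : ∀ v, (G.neighborSet v).ncard = 6)
    {L : List V} (hL : 16 * L.length ≤ Fintype.card V) :
    ∃ c : Sym2 V → ℝ, Good L c ∧ (∀ e, 0 < c e) ∧
      ∃ S : Finset V, S.card * 2 ^ ρ ≤ Fintype.card V ∧
        Fintype.card V ≤ 4 * (revealed G ell c S).ncard := by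
  obtain ⟨U, h1, h2, h3⟩ := exists_core hd L.toFinset
  obtain ⟨S, h4, h5, h6⟩ := exists_centres hr h2
  have hUL : ∀ v ∈ U, v ∉ L := by
    intro v hv hvL
    exact (Finset.disjoint_left.1 h1 hv) (List.mem_toFinset.2 hvL)
  refine ⟨cfin (sub G U) S L, good_cfin _ _ _, cfin_pos _ _ _, S, h5, ?_⟩
  set R := revealed G ell (cfin (sub G U) S L) S with hR
  have hex : ∀ w : V, ∃ u : V, w ∈ U \ S → dd (sub G U) S u < dd (sub G U) S w ∧ s(u, w) ∈ R := by
    intro w
    by_cases hw : w ∈ U \ S
    · rw [mem_sdiff] at hw
      obtain ⟨u, hu⟩ := forest (L := L) hr hUL h6 hw.1 hw.2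
      exact ⟨u, fun _ => hu⟩
    · exact ⟨w, fun h => absurd h hw⟩
  choose f hf using hex
  have hinj : Set.InjOn (fun w => s(f w, w)) (U \ S : Finset V) := by
    intro w hw w' hw' he
    have hw1 := (hf w (by simpa using hw)).1
    have hw2 := (hf w' (by simpa using hw')).1
    simp only at he
    rw [Sym2.eq_iff] at he
    rcases he with he | he
    · exact he.2
    · exfalso
      rw [he.1] at hw1
      rw [← he.2] at hw2
      omega
  have h7 : ((U \ S).image fun w => s(f w, w)).card = (U \ S).card := card_image_of_injOn hinj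
  have h8 : (((U \ S).image fun w => s(f w, w) : Finset (Sym2 V)) : Set (Sym2 V)) ⊆ R := by
    intro e he
    rw [coe_image] at he
    obtain ⟨w, hw, rfl⟩ := he
    exact (hf w (by simpa using hw)).2
  have h9 := Set.ncard_le_ncard h8 (Set.toFinite _)
  rw [Set.ncard_coe_finset, h7, card_sdiff_of_subset h4] at h9
  have h10 : L.toFinset.card ≤ L.length := L.toFinset_card_le
  have h11 : 4 * S.card ≤ Fintype.card V := by
    calc 4 * S.card = S.card * 2 ^ 2 := by ring
      _ ≤ S.card * 2 ^ ρ := Nat.mul_le_mul_left _ (Nat.pow_le_pow_right (by norm_num) hρ)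
      _ ≤ Fintype.card V := h5
  omega

end Core

/-- **Theorem.** For every `K` there are a 6-regular graph on `n` vertices, positive lengths with unique
shortest paths and `k ≥ 1` with `K k ≤ n` such that for every deterministic adaptive algorithm `A` and
every `m ≤ n / 16` there are positive capacities for which the first (at most) `m` vantage points of
`A` reveal at most `6 m` capacities, while some `k` vertices reveal at least `n / 4` capacities. -/
theorem result (K : ℕ) :
    ∃ (n : ℕ) (G : SimpleGraph (Fin n)) (ℓ : Sym2 (Fin n) → ℝ) (k : ℕ),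
      1 ≤ k ∧ K * k ≤ n ∧ (∀ v, (G.neighborSet v).ncard = 6) ∧ (∀ e, 0 < ℓ e) ∧
      UniqueShortest G ℓ ∧
      ∀ (A : List (Fin n → Option (Sym2 (Fin n) × ℝ)) → Option (Fin n)) (m : ℕ), 16 * m ≤ n →
        ∃ c : Sym2 (Fin n) → ℝ, (∀ e, 0 < c e) ∧
          (revealed G ℓ c {v | v ∈ run G ℓ c A m}).ncard ≤ 6 * m ∧
          ∃ S : Finset (Fin n), S.card = k ∧ n ≤ 4 * (revealed G ℓ c S).ncard := by
  set ρ : ℕ := K + 2 with hρ
  obtain ⟨n, G, hn, hd, hg⟩ := Pool.Agent.X241.reg_girth 6 (2 * (2 * ρ))
  have hr : Short G (2 * ρ) := fun s t p q hp hq h1 h2 =>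
    Pool.Agent.X241.unique_short (fun v w hw => hg v w hw) p q hp hq h1 h2
  have hcardV : Fintype.card (Fin n) = n := Fintype.card_fin n
  have hpow : 2 ^ ρ ≤ n := by
    have h1 := card_sphere hr (U := Finset.univ) (u := ⟨0, hn⟩)
      (fun v _ => by
        have := degIn_univ hd v
        omega) (Finset.mem_univ _) ρ (by omega)
    refine h1.trans ?_
    have h2 := Finset.card_le_univ (sphere (sub G Finset.univ) ρ (⟨0, hn⟩ : Fin n))
    rwa [hcardV] at h2
  have hk1 : 1 ≤ n / 2 ^ ρ := (Nat.le_div_iff_mul_le (by positivity)).2 (by rwa [one_mul])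
  refine ⟨n, G, ell, n / 2 ^ ρ, hk1, ?_, hd, fun e => ?_, uniqueShortest_ell, ?_⟩
  · have h1 : K ≤ 2 ^ ρ := by
      have h2 : K < 2 ^ K := Nat.lt_two_pow_self
      have h3 : 2 ^ K ≤ 2 ^ ρ := Nat.pow_le_pow_right (by norm_num) (by omega)
      omega
    calc K * (n / 2 ^ ρ) ≤ 2 ^ ρ * (n / 2 ^ ρ) := Nat.mul_le_mul_right _ h1
      _ ≤ n := Nat.mul_div_le _ _
  · unfold ell
    exact_mod_cast wN_pos e
  · intro A m hm
    have hlen := adv_length (G := G) ell A m
    obtain ⟨c, h1, h2, S, h3, h4⟩ := many (by omega : 2 ≤ ρ) hr hd (L := adv G ell A m)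
      (by rw [hcardV]; omega)
    rw [hcardV] at h3 h4
    refine ⟨c, h2, ?_, ?_⟩
    · rw [run_eq_adv ell A m c h1]
      exact (revealed_small hd h1).trans (Nat.mul_le_mul_left _ hlen)
    · have hSk : S.card ≤ n / 2 ^ ρ := (Nat.le_div_iff_mul_le (by positivity)).2 h3
      obtain ⟨T, hST, _, hT⟩ := Finset.exists_subsuperset_card_eq (Finset.subset_univ S) hSk
        (by rw [Finset.card_univ, hcardV]; exact Nat.div_le_self _ _)
      refine ⟨T, hT, h4.trans (Nat.mul_le_mul_left _ ?_)⟩
      exact Set.ncard_le_ncard (revealed_mono (by exact_mod_cast hST)) (Set.toFinite _)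

end Pool.Agent.Results.MP_617207_lc.LinearLowerBound
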